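import Pool.Agent.FS.PolyPF.Group

/-! Sizes of spheres in a two-coloured graph with constant degree on each colour. -/

namespace Pool.Agent.FS.PolyPF

variable {V : Type*} {Γ : SimpleGraph V} {m : ℕ}

theorem sph_odd [Finite V] (hG : Gi Γ m) {pt : Set V} {s t : ℕ}
    (hc : ∀ u v, Γ.Adj u v → (u ∈ pt ↔ v ∉ pt))
    (hp : ∀ v ∈ pt, (Γ.neighborSet v).ncard = t + 1)
    (hl : ∀ v ∉ pt, (Γ.neighborSet v).ncard = s + 1) (v : V) :
    ∀ i : ℕ, 2 * (2 * i + 1) < m →
      (Sph Γ v (2 * i + 1)).ncard = (Γ.neighborSet v).ncard * (s * t) ^ i := by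
  intro i
  induction i with
  | zero => intro _; simp [sph_one]
  | succ i ih =>
    intro hi
    have e : 2 * (i + 1) + 1 = 2 * i + 1 + 1 + 1 := by omega
    rw [e]
    by_cases hv : v ∈ pt
    · rw [sph_succ hG v (j := 2 * i + 1 + 1) (r := t) (by omega) (by omega) (fun y hy => hp y (by
          have := (sph_colour hc _ y hy).2 (by omega); tauto)),
        sph_succ hG v (j := 2 * i + 1) (r := s) (by omega) (by omega) (fun y hy => hl y (by
          have := (sph_colour hc _ y hy).1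
          have h3 : ¬ (2 * i + 1) % 2 = 0 := by omega
          tauto)), ih (by omega)]
      ring
    · rw [sph_succ hG v (j := 2 * i + 1 + 1) (r := s) (by omega) (by omega) (fun y hy => hl y (by
          have := (sph_colour hc _ y hy).2 (by omega); tauto)),
        sph_succ hG v (j := 2 * i + 1) (r := t) (by omega) (by omega) (fun y hy => hp y (by
          have := (sph_colour hc _ y hy).1
          have h3 : ¬ (2 * i + 1) % 2 = 0 := by omega
          tauto)), ih (by omega)]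
      ring

theorem sph_even [Finite V] (hG : Gi Γ m) {pt : Set V} {s t : ℕ}
    (hc : ∀ u v, Γ.Adj u v → (u ∈ pt ↔ v ∉ pt))
    (hp : ∀ v ∈ pt, (Γ.neighborSet v).ncard = t + 1)
    (hl : ∀ v ∉ pt, (Γ.neighborSet v).ncard = s + 1) {v : V} (hv : v ∈ pt) (i : ℕ)
    (hi : 2 * (2 * i + 2) < m) :
    (Sph Γ v (2 * i + 2)).ncard = (t + 1) * (s * t) ^ i * s := by
  rw [show 2 * i + 2 = 2 * i + 1 + 1 by omega,
    sph_succ hG v (j := 2 * i + 1) (r := s) (by omega) (by omega) (fun y hy => hl y (by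
      have := (sph_colour hc _ y hy).1
      have h3 : ¬ (2 * i + 1) % 2 = 0 := by omega
      tauto)), sph_odd hG hc hp hl v i (by omega), hp v hv]

theorem pts_le [Finite V] {n : ℕ} (hG : Gi Γ (4 * n)) {pt : Set V} {s t : ℕ}
    (hs : 1 ≤ s) (ht : 1 ≤ t)
    (hc : ∀ u v, Γ.Adj u v → (u ∈ pt ↔ v ∉ pt))
    (hp : ∀ v ∈ pt, (Γ.neighborSet v).ncard = t + 1)
    (hl : ∀ v ∉ pt, (Γ.neighborSet v).ncard = s + 1)
    (hd : ∀ u v, Γ.edist u v ≤ (2 * n : ℕ)) {l : V} (hv : l ∉ pt) :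
    pt.ncard ≤ n * (2 * s * (s * t) ^ (n - 1)) := by
  classical
  have := Fintype.ofFinite V
  have h1 : pt ⊆ ((Finset.range n).biUnion fun i => (Sph Γ l (2 * i + 1)).toFinset : Finset V) := by
    intro y hy
    obtain ⟨j, hj, hy'⟩ := exists_sph (hd l y)
    have h2 := (sph_colour hc _ y hy').2
    have h3 : ¬ j % 2 = 0 := by tauto
    simp only [Finset.mem_coe, Finset.mem_biUnion, Finset.mem_range, Set.mem_toFinset]
    exact ⟨j / 2, by omega, by rwa [show 2 * (j / 2) + 1 = j by omega]⟩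
  refine (Set.ncard_le_ncard h1).trans ?_
  rw [Set.ncard_coe_finset]
  refine Finset.card_biUnion_le.trans ?_
  refine (Finset.sum_le_card_nsmul _ _ (2 * s * (s * t) ^ (n - 1)) fun i hi => ?_).trans (by simp)
  rw [Finset.mem_range] at hi
  rw [← Set.ncard_eq_toFinset_card', sph_odd hG hc hp hl l i (by omega), hl l hv]
  exact Nat.mul_le_mul (by omega)
    (Nat.pow_le_pow_right (Nat.mul_pos hs ht) (by omega))

theorem half_bound {t : ℕ} (ht : 1 ≤ t) :
    (t + 1) ^ 2 ≤ 9 * ((t + 1) / 2 * (t + 1 - (t + 1) / 2)) := by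
  calc (t + 1) ^ 2 = (t + 1) * (t + 1) := sq _
    _ ≤ (3 * ((t + 1) / 2)) * (3 * (t + 1 - (t + 1) / 2)) := Nat.mul_le_mul (by omega) (by omega)
    _ = _ := by ring

end Pool.Agent.FS.PolyPF
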