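import Pool.Agent.FS.PolyPF.Walks

/-! Product-free sets from a group acting on a graph with no short cycle. -/

namespace Pool.Agent.FS.PolyPF

variable {V G : Type*} {Γ : SimpleGraph V} {m : ℕ} [Group G] [MulAction G V]

theorem NB.smul (hA : ∀ (g : G) u v, Γ.Adj u v → Γ.Adj (g • u) (g • v)) {n : ℕ} {f : ℕ → V}
    (hf : NB Γ n f) (g : G) : NB Γ n (fun i => g • f i) :=
  ⟨fun i hi => hA g _ _ (hf.1 i hi), fun i hi he => hf.2 i hi (MulAction.injective g he)⟩

/-- elements moving `x` along a walk that starts through `u` and arrives through the image of `w` -/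
def Cell (Γ : SimpleGraph V) (G : Type*) [Group G] [MulAction G V] (x : V) (d : ℕ) (u w : V) :
    Set G :=
  {g | ∃ f, NB Γ d f ∧ f 0 = x ∧ f d = g • x ∧ f 1 = u ∧ f (d - 1) = g • w}

theorem cell_le [Finite G] (hA : ∀ (g : G) u v, Γ.Adj u v → Γ.Adj (g • u) (g • v)) {x : V}
    (htr : ∀ u w, Γ.Adj x u → Γ.Adj x w → ∃ h : G, h • x = x ∧ h • u = w) (d : ℕ)
    {u w u' w' : V} (hu : Γ.Adj x u) (hw : Γ.Adj x w) (hu' : Γ.Adj x u') (hw' : Γ.Adj x w') :
    (Cell Γ G x d u w).ncard ≤ (Cell Γ G x d u' w').ncard := by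
  obtain ⟨h, h1, h2⟩ := htr u u' hu hu'
  obtain ⟨k, k1, k2⟩ := htr w' w hw' hw
  refine Set.ncard_le_ncard_of_injOn (fun g => h * g * k) ?_ ?_
  · rintro g ⟨f, hf, f0, fd, f1, fl⟩
    exact ⟨_, hf.smul hA h, by simp [f0, h1], by simp [fd, mul_smul, k1], by simp [f1, h2],
      by simp [fl, mul_smul, k2]⟩
  · intro a _ b _ hab
    simpa using hab

theorem exists_free [Finite G] [Finite V] (hG : Gi Γ m)
    (hA : ∀ (g : G) u v, Γ.Adj u v → Γ.Adj (g • u) (g • v)) {x : V}
    (htr : ∀ u w, Γ.Adj x u → Γ.Adj x w → ∃ h : G, h • x = x ∧ h • u = w) {d k a : ℕ}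
    (hd : 2 ≤ d) (hk : (Γ.neighborSet x).ncard = k) (ha : a ≤ k)
    (hm : 3 * d < m ∨ (3 * d < m + 2 ∧ a ≤ 1)) :
    ∃ S : Set G, (∀ g ∈ S, ∀ h ∈ S, g * h ∉ S) ∧
      a * (k - a) * {g : G | g • x ∈ Sph Γ x d}.ncard ≤ k ^ 2 * S.ncard := by
  classical
  have := Fintype.ofFinite V
  have := Fintype.ofFinite G
  set N := (Γ.neighborSet x).toFinset with hN
  have hNk : N.card = k := by rw [hN, ← Set.ncard_eq_toFinset_card', hk]
  have hNm : ∀ u, u ∈ N ↔ Γ.Adj x u := fun u => by simp [hN]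
  obtain ⟨O, hO, hOa⟩ := Finset.exists_subset_card_eq (s := N) (n := a) (by omega)
  let C : V × V → Finset G := fun p => (Cell Γ G x d p.1 p.2).toFinset
  have hC : ∀ p g, g ∈ C p ↔ g ∈ Cell Γ G x d p.1 p.2 := fun p g => by simp [C]
  have hCc : ∀ p, (C p).card = (Cell Γ G x d p.1 p.2).ncard := fun p =>
    (Set.ncard_eq_toFinset_card' _).symm
  refine ⟨((O ×ˢ (N \ O)).biUnion C : Finset G), ?_, ?_⟩
  · intro g hg h hh hgh
    simp only [Finset.mem_coe, Finset.mem_biUnion, Finset.mem_product, Finset.mem_sdiff,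
      hC] at hg hh hgh
    obtain ⟨⟨u, w⟩, ⟨hu, -, hw⟩, f, hf, f0, fd, f1, fl⟩ := hg
    obtain ⟨⟨u', w'⟩, ⟨hu', -, -⟩, f', hf', f0', fd', f1', -⟩ := hh
    obtain ⟨⟨u'', w''⟩, ⟨hu'', -, -⟩, f'', hf'', f0'', fd'', f1'', -⟩ := hgh
    dsimp only at *
    have hcat := hf.cat (hf'.smul hA g) (by simp [fd, f0']) (fun _ _ he => by
      rw [fl, f1'] at he
      exact hw (MulAction.injective g he ▸ hu'))
    have hend : (fun i => if i ≤ d then f i else g • f' (i - d)) (d + d) = f'' d := by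
      simp only [if_neg (show ¬ d + d ≤ d by omega), Nat.add_sub_cancel, fd', fd'', mul_smul]
    rcases hm with hm | ⟨hm, ha1⟩
    · have := len_eq hG _ _ _ _ hcat hf'' (by simp [f0, f0'']) hend (by omega)
      omega
    · have huu : u = u'' := Finset.card_le_one.1 (hOa ▸ ha1) _ hu _ hu''
      obtain ⟨e, rfl⟩ : ∃ e, d = e + 1 := ⟨d - 1, by omega⟩
      have h2 : NB Γ (e + 1 + e + 1) _ := hcat
      have := len_eq hG _ _ _ _ h2.shift hf''.shift
        (by simp [f1, f1'', huu]) hend (by omega)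
      omega
  · have h1 : ((O ×ˢ (N \ O)).biUnion C).card = ∑ p ∈ O ×ˢ (N \ O), (C p).card := by
      refine Finset.card_biUnion ?_
      rintro ⟨u, w⟩ - ⟨u', w'⟩ - hne
      rw [Function.onFun, Finset.disjoint_left]
      intro g hg hg'
      rw [hC] at hg hg'
      obtain ⟨f, hf, f0, fd, f1, fl⟩ := hg
      obtain ⟨f', hf', f0', fd', f1', fl'⟩ := hg'
      have e1 := first_eq hG hf hf' (f0.trans f0'.symm) (fd.trans fd'.symm) (by omega)
        (by omega) (by omega)
      have e2 := last_eq hG hf hf' (f0.trans f0'.symm) (fd.trans fd'.symm) (by omega)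
        (by omega) (by omega)
      rw [f1, f1'] at e1
      rw [fl, fl'] at e2
      exact hne (Prod.ext e1 (MulAction.injective g e2))
    have h2 : {g : G | g • x ∈ Sph Γ x d}.ncard ≤ ∑ p ∈ N ×ˢ N, (C p).card := by
      refine le_trans ?_ Finset.card_biUnion_le
      rw [← Set.ncard_coe_finset]
      refine Set.ncard_le_ncard ?_
      rintro g ⟨f, hf, f0, fd⟩
      simp only [Finset.mem_coe, Finset.mem_biUnion, Finset.mem_product, hC, hNm]
      refine ⟨(f 1, g⁻¹ • f (d - 1)), ⟨f0 ▸ hf.1 0 (by omega), ?_⟩, f, hf, f0, fd, rfl, by simp⟩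
      have := hA g⁻¹ _ _ (hf.1 (d - 1) (by omega)).symm
      rwa [show d - 1 + 1 = d by omega, fd, inv_smul_smul] at this
    have h3 : (O ×ˢ (N \ O)).card = a * (k - a) := by
      rw [Finset.card_product, Finset.card_sdiff_of_subset hO, hOa, hNk]
    have h4 : (N ×ˢ N).card = k ^ 2 := by rw [Finset.card_product, hNk, sq]
    rw [Set.ncard_coe_finset, h1, ← h3, ← h4]
    calc _ ≤ (O ×ˢ (N \ O)).card * ∑ p ∈ N ×ˢ N, (C p).card := Nat.mul_le_mul_left _ h2
      _ = ∑ p ∈ N ×ˢ N, ∑ _q ∈ O ×ˢ (N \ O), (C p).card := by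
        rw [Finset.mul_sum]; simp
      _ ≤ ∑ _p ∈ N ×ˢ N, ∑ q ∈ O ×ˢ (N \ O), (C q).card := by
        refine Finset.sum_le_sum fun p hp => Finset.sum_le_sum fun q hq => ?_
        simp only [Finset.mem_product, Finset.mem_sdiff] at hp hq
        rw [hCc, hCc]
        exact cell_le hA htr d ((hNm _).1 hp.1) ((hNm _).1 hp.2) ((hNm _).1 (hO hq.1))
          ((hNm _).1 hq.2.1)
      _ = _ := by simp

theorem ncard_moves [Finite G] [Finite V] (x : V) (T : Set V) (hT : ∀ y ∈ T, ∃ g : G, g • x = y) :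
    {g : G | g • x ∈ T}.ncard = T.ncard * {g : G | g • x = x}.ncard := by
  classical
  have := Fintype.ofFinite V
  have := Fintype.ofFinite G
  rw [Set.ncard_eq_toFinset_card', Set.ncard_eq_toFinset_card', Set.ncard_eq_toFinset_card',
    Finset.card_eq_sum_card_fiberwise (f := fun g : G => g • x) (t := T.toFinset)
      (fun g hg => by simpa using hg), ← smul_eq_mul, ← Finset.sum_const]
  refine Finset.sum_congr rfl fun y hy => ?_
  rw [Set.mem_toFinset] at hy
  obtain ⟨g0, rfl⟩ := hT y hy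
  refine Finset.card_bij (fun g _ => g0⁻¹ * g) ?_ ?_ ?_
  · intro g hg
    simp only [Finset.mem_filter] at hg
    simp [mul_smul, hg.2]
  · intro a _ b _ h
    simpa using h
  · intro g hg
    have hg' : g • x = x := by simpa using hg
    exact ⟨g0 * g, by simp [mul_smul, hg', hy], by simp⟩

end Pool.Agent.FS.PolyPF
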