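import Mathlib

/-! Walks without backtracking in a graph with no short cycle. -/

namespace Pool.Agent.FS.PolyPF

variable {V : Type*} {Γ : SimpleGraph V} {m : ℕ}

/-- `f 0, …, f n` is a walk that never returns at once to the vertex it came from -/
def NB (Γ : SimpleGraph V) (n : ℕ) (f : ℕ → V) : Prop :=
  (∀ i, i < n → Γ.Adj (f i) (f (i + 1))) ∧ (∀ i, i + 2 ≤ n → f (i + 2) ≠ f i)

/-- every cycle has at least `m` edges -/
def Gi (Γ : SimpleGraph V) (m : ℕ) : Prop :=
  ∀ a (w : Γ.Walk a a), w.IsCycle → m ≤ w.length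

theorem NB.shift {n : ℕ} {f : ℕ → V} (h : NB Γ (n + 1) f) : NB Γ n (fun i => f (i + 1)) :=
  ⟨fun i hi => h.1 (i + 1) (by omega), fun i hi => h.2 (i + 1) (by omega)⟩

theorem NB.mono {n k : ℕ} {f : ℕ → V} (h : NB Γ n f) (hk : k ≤ n) : NB Γ k f :=
  ⟨fun i hi => h.1 i (by omega), fun i hi => h.2 i (by omega)⟩

theorem NB.rev {n : ℕ} {f : ℕ → V} (h : NB Γ n f) : NB Γ n (fun i => f (n - i)) := by
  refine ⟨fun i hi => ?_, fun i hi => ?_⟩
  · have := (h.1 (n - (i + 1)) (by omega)).symm
    rwa [show n - (i + 1) + 1 = n - i by omega] at this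
  · have := (h.2 (n - (i + 2)) (by omega)).symm
    rwa [show n - (i + 2) + 2 = n - i by omega] at this

theorem NB.cat {a b : ℕ} {f g : ℕ → V} (hf : NB Γ a f) (hg : NB Γ b g) (h0 : f a = g 0)
    (h1 : 0 < a → 0 < b → f (a - 1) ≠ g 1) :
    NB Γ (a + b) (fun i => if i ≤ a then f i else g (i - a)) := by
  refine ⟨fun i hi => ?_, fun i hi => ?_⟩
  · rcases lt_trichotomy i a with h | h | h
    · simp only [if_pos h.le, if_pos (show i + 1 ≤ a from h)]
      exact hf.1 i h
    · subst h
      simp only [le_refl, if_true, if_neg (show ¬ i + 1 ≤ i by omega), Nat.add_sub_cancel_left, h0]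
      exact hg.1 0 (by omega)
    · simp only [if_neg (show ¬ i ≤ a by omega), if_neg (show ¬ i + 1 ≤ a by omega)]
      rw [show i + 1 - a = i - a + 1 by omega]
      exact hg.1 _ (by omega)
  · by_cases h : i + 2 ≤ a
    · simp only [if_pos h, if_pos (show i ≤ a by omega)]
      exact hf.2 i h
    · by_cases h2 : i + 1 = a
      · subst h2
        simp only [if_neg h, if_pos (show i ≤ i + 1 by omega)]
        rw [show i + 2 - (i + 1) = 1 by omega]
        exact (h1 (by omega) (by omega)).symm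
      · by_cases h3 : i = a
        · subst h3
          simp only [if_neg h, le_refl, if_true, Nat.add_sub_cancel_left, h0]
          exact hg.2 0 (by omega)
        · simp only [if_neg h, if_neg (show ¬ i ≤ a by omega)]
          rw [show i + 2 - a = i - a + 2 by omega]
          exact hg.2 _ (by omega)

theorem exists_path (hG : Gi Γ m) : ∀ (n : ℕ) (f : ℕ → V), NB Γ n f → n < m →
    ∃ p : Γ.Walk (f 0) (f n), p.IsPath ∧ p.length = n ∧ (0 < n → p.getVert 1 = f 1) := by
  classical
  intro n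
  induction n with
  | zero => exact fun f _ _ => ⟨.nil, by simp, rfl, by simp⟩
  | succ n ih =>
    intro f hf hn
    obtain ⟨p, hp, hl, h1⟩ := ih _ hf.shift (by omega)
    have h : Γ.Adj (f 0) (f (0 + 1)) := hf.1 0 (by omega)
    refine ⟨.cons h p, ?_, by simp [hl], fun _ => by simp⟩
    rw [SimpleGraph.Walk.cons_isPath_iff]
    refine ⟨hp, fun hu => ?_⟩
    by_cases he : s(f 0, f (0 + 1)) ∈ (p.takeUntil _ hu).edges
    · have h2 := (hp.takeUntil hu).eq_snd_of_mem_edges (Sym2.eq_swap ▸ he)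
      rw [SimpleGraph.Walk.snd_takeUntil h.ne] at h2
      rcases Nat.eq_zero_or_pos n with rfl | hpos
      · have h3 : p.getVert 1 = f (0 + 1) := p.getVert_of_length_le (by omega)
        exact h.ne (h2.trans h3)
      · exact hf.2 0 (by omega) (h2.trans (h1 hpos)).symm
    · have h2 := hG _ _ ((SimpleGraph.Walk.cons_isCycle_iff _ h).2 ⟨hp.takeUntil hu, he⟩)
      have h3 := p.length_takeUntil_le_length hu
      simp only [SimpleGraph.Walk.length_cons] at h2
      omega

theorem closed (hG : Gi Γ m) {n : ℕ} {f : ℕ → V} (hf : NB Γ n f) (hn : n < m) (h : f 0 = f n) :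
    n = 0 := by
  obtain ⟨p, hp, hl, -⟩ := exists_path hG n f hf hn
  have := hp.getVert_injOn (x₁ := 0) (x₂ := p.length) (by simp) (by simp) (by simpa using h)
  omega

theorem first_eq (hG : Gi Γ m) {a b : ℕ} {f g : ℕ → V} (hf : NB Γ a f) (hg : NB Γ b g)
    (h0 : f 0 = g 0) (h1 : f a = g b) (hm : a + b < m) (ha : 0 < a) (hb : 0 < b) : f 1 = g 1 := by
  by_contra hne
  have h := hf.rev.cat hg (by simpa using h0)
    (fun _ _ => by rwa [show a - (a - 1) = 1 by omega])
  have := closed hG h hm (by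
    simp only [Nat.zero_le, if_true, Nat.sub_zero, if_neg (show ¬ a + b ≤ a by omega),
      Nat.add_sub_cancel_left, h1])
  omega

theorem last_eq (hG : Gi Γ m) {a b : ℕ} {f g : ℕ → V} (hf : NB Γ a f) (hg : NB Γ b g)
    (h0 : f 0 = g 0) (h1 : f a = g b) (hm : a + b < m) (ha : 0 < a) (hb : 0 < b) :
    f (a - 1) = g (b - 1) :=
  first_eq hG hf.rev hg.rev (by simpa using h1) (by simpa using h0) hm ha hb

theorem len_eq (hG : Gi Γ m) : ∀ (a b : ℕ) (f g : ℕ → V), NB Γ a f → NB Γ b g →
    f 0 = g 0 → f a = g b → a + b < m → a = b := by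
  intro a
  induction a with
  | zero =>
    intro b f g _ hg h0 h1 hm
    exact (closed hG hg (by omega) (h0.symm.trans h1)).symm
  | succ a ih =>
    intro b f g hf hg h0 h1 hm
    rcases b with _ | b
    · exact closed hG hf (by omega) (h0.trans h1.symm)
    · have := ih b _ _ hf.shift hg.shift
        (first_eq hG hf hg h0 h1 hm (by omega) (by omega)) h1 (by omega)
      omega

/-- the end points of the walks of length `j` from `v` without backtracking -/
def Sph (Γ : SimpleGraph V) (v : V) (j : ℕ) : Set V := {y | ∃ f, NB Γ j f ∧ f 0 = v ∧ f j = y}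

theorem exists_sph {v y : V} {n : ℕ} (h : Γ.edist v y ≤ n) : ∃ j ≤ n, y ∈ Sph Γ v j := by
  have hr : Γ.Reachable v y := SimpleGraph.reachable_of_edist_ne_top
    (ne_top_of_le_ne_top (ENat.natCast_ne_top n) h)
  obtain ⟨p, hp, hl⟩ := hr.exists_path_of_dist
  refine ⟨p.length, ?_, p.getVert, ⟨fun i hi => p.adj_getVert_succ hi, fun i hi he => ?_⟩,
    by simp, by simp⟩
  · rw [← hr.coe_dist_eq_edist, ← hl] at h
    exact_mod_cast h
  · have := hp.getVert_injOn (x₁ := i + 2) (x₂ := i) (by simpa using hi)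
      (by simp only [Set.mem_ofPred_eq]; omega) he
    omega

theorem sph_one (v : V) : Sph Γ v 1 = Γ.neighborSet v := by
  ext y
  constructor
  · rintro ⟨f, hf, rfl, rfl⟩
    exact hf.1 0 (by omega)
  · intro h
    refine ⟨fun i => if i = 0 then v else y, ⟨fun i hi => ?_, fun i hi => by omega⟩, by simp, by simp⟩
    obtain rfl : i = 0 := by omega
    simpa using h

theorem NB.snoc {j : ℕ} {f : ℕ → V} (hf : NB Γ j f) {z : V} (h : Γ.Adj (f j) z)
    (hz : z ≠ f (j - 1)) : ∃ g, NB Γ (j + 1) g ∧ g 0 = f 0 ∧ g j = f j ∧ g (j + 1) = z := by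
  have h1 : NB Γ 1 (fun i => if i = 0 then f j else z) := by
    refine ⟨fun i hi => ?_, fun i hi => by omega⟩
    obtain rfl : i = 0 := by omega
    simpa using h
  exact ⟨_, hf.cat h1 (by simp) (fun _ _ => by simpa using hz.symm), by simp, by simp, by simp⟩

theorem sph_succ [Finite V] (hG : Gi Γ m) (v : V) {j r : ℕ} (hj : 0 < j) (hm : 2 * (j + 1) < m)
    (hr : ∀ y ∈ Sph Γ v j, (Γ.neighborSet y).ncard = r + 1) :
    (Sph Γ v (j + 1)).ncard = (Sph Γ v j).ncard * r := by
  classical
  have := Fintype.ofFinite V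
  rw [Set.ncard_eq_toFinset_card', Set.ncard_eq_toFinset_card']
  have key := Finset.card_mul_eq_card_mul (s := (Sph Γ v j).toFinset)
    (t := (Sph Γ v (j + 1)).toFinset) (m := r) (n := 1) Γ.Adj ?_ ?_
  · omega
  · intro y hy
    rw [Set.mem_toFinset] at hy
    have h1 := hr y hy
    obtain ⟨f, hf, h0, rfl⟩ := hy
    have h2 : Γ.Adj (f j) (f (j - 1)) := by
      have := (hf.1 (j - 1) (by omega)).symm
      rwa [show j - 1 + 1 = j by omega] at this
    have h3 : Finset.bipartiteAbove Γ.Adj (Sph Γ v (j + 1)).toFinset (f j) =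
        (Γ.neighborSet (f j)).toFinset.erase (f (j - 1)) := by
      ext z
      simp only [Finset.mem_bipartiteAbove, Set.mem_toFinset, Finset.mem_erase,
        SimpleGraph.mem_neighborSet]
      constructor
      · rintro ⟨⟨g, hg, g0, rfl⟩, h⟩
        refine ⟨fun he => ?_, h⟩
        have := len_eq hG _ _ _ _ hg (hf.mono (Nat.sub_le j 1)) (g0.trans h0.symm) he (by omega)
        omega
      · rintro ⟨hz, h⟩
        obtain ⟨g, hg, g0, -, g1⟩ := hf.snoc h hz
        exact ⟨⟨g, hg, g0.trans h0, g1⟩, h⟩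
    rw [h3, Finset.card_erase_of_mem (by simpa using h2), ← Set.ncard_eq_toFinset_card', h1]
    rfl
  · intro z hz
    rw [Set.mem_toFinset] at hz
    obtain ⟨g, hg, g0, rfl⟩ := hz
    rw [Finset.card_eq_one]
    refine ⟨g j, ?_⟩
    ext y
    simp only [Finset.mem_bipartiteBelow, Set.mem_toFinset, Finset.mem_singleton]
    constructor
    · rintro ⟨⟨f, hf, h0, rfl⟩, h⟩
      have hz : g (j + 1) ≠ f (j - 1) := fun he => by
        have := len_eq hG _ _ _ _ hg (hf.mono (Nat.sub_le j 1)) (g0.trans h0.symm) he (by omega)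
        omega
      obtain ⟨f', hf', f0, fj, f1⟩ := hf.snoc h hz
      have := last_eq hG hf' hg (f0.trans (h0.trans g0.symm)) f1 (by omega) (by omega) (by omega)
      simpa [fj] using this
    · rintro rfl
      exact ⟨⟨g, hg.mono (by omega), g0, rfl⟩, hg.1 j (by omega)⟩

/-- parity of the colour along a walk in a two-coloured graph -/
theorem sph_colour {pt : Set V} (hc : ∀ u v, Γ.Adj u v → (u ∈ pt ↔ v ∉ pt)) {v : V} :
    ∀ (j : ℕ) (y : V), y ∈ Sph Γ v j → ((y ∈ pt ↔ v ∈ pt) ↔ j % 2 = 0) := by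
  intro j
  induction j with
  | zero =>
    rintro y ⟨f, -, rfl, rfl⟩
    simp
  | succ j ih =>
    rintro y ⟨f, hf, h0, rfl⟩
    have h1 := ih _ ⟨f, hf.mono (by omega), h0, rfl⟩
    have h2 := hc _ _ (hf.1 j (by omega))
    have h3 : (j + 1) % 2 = 0 ↔ ¬ j % 2 = 0 := by omega
    tauto

end Pool.Agent.FS.PolyPF
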